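import Mathlib
import Pool.Agent.H79.MHFat

set_option autoImplicit false

universe u

open Pool.Agent.H79.MH in
theorem Pool.Agent.Results.MP_94ed3e_ag.FatPoint.result (k : Type u) [Field k] :
    ∃ (w : Fin 3 → ℤ × ℤ) (h : ℤ × ℤ → ℕ) (U : Ideal (MvPolynomial (Fin 3) (DualNumber k))),
      Represents k w h (DualNumber k) U ∧
      IsLocalRing (DualNumber k) ∧ IsArtinianRing (DualNumber k) ∧ ¬ IsField (DualNumber k) := by
  refine ⟨_, _, _, Fat.represents k, inferInstance, ?_, fun hF => ?_⟩
  · have : Module.Finite k (DualNumber k) := inferInstanceAs (Module.Finite k (k × k))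
    exact IsArtinianRing.of_finite k _
  · have := hF.isDomain
    have h1 : (DualNumber.eps : DualNumber k) = 0 := mul_self_eq_zero.1 DualNumber.eps_mul_eps
    have h2 := congrArg TrivSqZeroExt.snd h1
    simp at h2
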